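import Mathlib

namespace Pool.Agent.Results.MP_7acd66_nt.OddTerm

/-- One subtraction step: subtract `d` from the remainder `r` when `r ≥ d`. -/
def step (r d : ℕ) : ℕ := if d ≤ r then r - d else r

/-- The perfect deficiency: run through the divisors of `n` in increasing order, from `r_0 = n`. -/
def pd (n : ℕ) : ℕ := (n.divisors.sort (· ≤ ·)).foldl step n

lemma foldl_step (l : List ℕ) : ∀ r, l.sum ≤ r → l.foldl step r = r - l.sum := by
  induction l with
  | nil => intro r _; simp
  | cons d l ih =>
    intro r h
    simp only [List.sum_cons] at h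
    rw [List.foldl_cons, step, if_pos (by omega), ih _ (by omega), List.sum_cons]
    omega

lemma sort_divisors {n : ℕ} (hn : n ≠ 0) :
    n.divisors.sort (· ≤ ·) = n.properDivisors.sort (· ≤ ·) ++ [n] := by
  apply List.Perm.eq_of_pairwise' (r := (· ≤ ·)) (Finset.pairwise_sort _ _)
  · rw [List.pairwise_append]
    refine ⟨Finset.pairwise_sort _ _, List.pairwise_singleton _ _, fun a ha b hb => ?_⟩
    rw [Finset.mem_sort] at ha
    rw [List.mem_singleton.1 hb]
    exact (Nat.mem_properDivisors.1 ha).2.le
  · rw [← Multiset.coe_eq_coe, ← Multiset.coe_add, Finset.sort_eq, Finset.sort_eq,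
      ← Nat.cons_self_properDivisors hn, Finset.cons_val, Multiset.coe_singleton, add_comm,
      Multiset.singleton_add]

lemma pd_eq {n r : ℕ} (hr : r < n) (h : ∑ d ∈ n.divisors, d + r = 2 * n) : pd n = r := by
  have h1 : (n.properDivisors.sort (· ≤ ·)).sum = ∑ d ∈ n.properDivisors, d := by
    rw [← Multiset.sum_coe, Finset.sort_eq, Finset.sum_val]; rfl
  rw [Nat.sum_divisors_eq_sum_properDivisors_add_self] at h
  rw [pd, sort_divisors (by omega), List.foldl_append, foldl_step (n.properDivisors.sort (· ≤ ·)) n (by omega), h1]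
  simp only [List.foldl_cons, List.foldl_nil, step]
  rw [if_neg (by omega)]
  omega

lemma sum_prime {p : ℕ} (hp : p.Prime) : ∑ d ∈ p.divisors, d = p + 1 := by
  rw [hp.sum_divisors]

lemma ex : pd 815634435 = 6 := by
  apply pd_eq (by norm_num)
  rw [show 815634435 = 3 * (5 * (7 * (11 * (547 * 1291)))) by norm_num,
    Nat.Coprime.sum_divisors_mul (by norm_num), Nat.Coprime.sum_divisors_mul (by norm_num),
    Nat.Coprime.sum_divisors_mul (by norm_num), Nat.Coprime.sum_divisors_mul (by norm_num),
    Nat.Coprime.sum_divisors_mul (by norm_num), sum_prime (by norm_num), sum_prime (by norm_num),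
    sum_prime (by norm_num), sum_prime (by norm_num), sum_prime (by norm_num),
    sum_prime (by norm_num)]

theorem result :
    pd 815634435 = 6 ∧ ¬ ∀ n : ℕ, 1155 < n → pd n ≤ 10 → Even n := by
  refine ⟨ex, fun h => ?_⟩
  have := h 815634435 (by norm_num) (by rw [ex]; norm_num)
  norm_num at this

end Pool.Agent.Results.MP_7acd66_nt.OddTerm
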